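import Mathlib
import Pool.Agent.H478.Defs
import Pool.Agent.H478.DR
import Pool.Agent.H478.DS
import Pool.Agent.H478.DZB
import Pool.Agent.H478.DZI
import Pool.Agent.H478.DZJ
set_option autoImplicit false
namespace Pool.Agent.Results.MP_577596_ag.AllDegrees
open MvPolynomial DPI

universe u

/-- `L / F` is the function field of a del Pezzo surface `X` of degree `d` over the field `F`,
given by its classical equations, and `m` is the least degree of a closed point of `X`. -/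
def DelPezzo (F L : Type u) [Field F] [Field L] [Algebra F L] (d m : ℕ) : Prop :=
  -- a nontrivial Severi-Brauer surface: it is birational to the cubic surface
  -- `N(x₀ e₀ + x₁ e₁ + x₂ e₂) = c x₃³`, where `E / F` is a cyclic cubic field extension with
  -- basis `e` and `c ∈ F` is not a norm from `E`
  (d = 9 ∧ ∃ (E : Type u) (_ : Field E) (_ : Algebra F E) (_ : IsGalois F E)
    (e : Module.Basis (Fin 3) F E) (c : F) (x : Fin 4 → L), (∀ z : E, Algebra.norm F z ≠ c) ∧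
    IsFunctionField 1 {normCubic e c} L x ∧ m = minDeg {normCubic e c}) ∨
  -- the Weil restriction `R_{K/F} C` of the conic `x² + x y + c y² = β w²` over the quadratic
  -- étale algebra `K = F[ω]`, `ω² = a + b ω`; its open subset `w ≠ 0` is dense in the complete
  -- intersection of the two quadrics (real and imaginary part of the equation) in `P⁴`, `w ∈ F`
  (d = 8 ∧ Infinite F ∧ ∃ (a b : F) (c β : QuadraticAlgebra F a b) (x : Fin 5 → L),
    b ^ 2 + 4 * a ≠ 0 ∧ IsUnit (1 - 4 * c) ∧ IsUnit β ∧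
    IsFunctionField 1 {(conicEq c β).re, (conicEq c β).im} L x ∧ m = conicDeg c β) ∨
  -- the complement of the hexagon of lines is the torsor `z z̄ = l`, `N_{KE/K}(z) = n` in `KE`,
  -- `K = F[ω]`, `ω² = a + b ω` and `E = F[θ]`, `θ³ = r + s θ + t θ²`, étale, `l ∈ E`, `n ∈ K`
  (d = 6 ∧ Infinite F ∧ ∃ (a b r s t : F) (l : Fin 3 → F) (n : QuadraticAlgebra F a b)
    (z : Fin 3 → QuadraticAlgebra L (algebraMap F L a) (algebraMap F L b)),
    b ^ 2 + 4 * a ≠ 0 ∧
    (Polynomial.X ^ 3 - Polynomial.C t * Polynomial.X ^ 2 - Polynomial.C s * Polynomial.X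
      - Polynomial.C r : Polynomial F).Separable ∧ normE r s t l ≠ 0 ∧ IsUnit n ∧
    IsTorsorPoint a b r s t l n L z ∧ IntermediateField.adjoin F (coords z) = ⊤ ∧
    (∃ s₀ t₀ : L, AlgebraicIndependent F ![s₀, t₀]) ∧ m = torsorDeg a b r s t l n) ∨
  -- the rational surfaces of degree at least five
  (5 ≤ d ∧ d ≤ 9 ∧ IsRational F L ∧ m = 1) ∨
  -- a smooth complete intersection of two quadrics in `P⁴`
  (d = 4 ∧ ∃ (q₁ q₂ : MvPolynomial (Fin 5) F) (x : Fin 5 → L), q₁.IsHomogeneous 2 ∧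
    q₂.IsHomogeneous 2 ∧ IsSmooth ![q₁, q₂] ∧ IsFunctionField 1 {q₁, q₂} L x ∧
    m = minDeg {q₁, q₂}) ∨
  -- a smooth cubic surface in `P³`
  (d = 3 ∧ ∃ (f : MvPolynomial (Fin 4) F) (x : Fin 4 → L), f.IsHomogeneous 3 ∧ IsSmooth ![f] ∧
    IsFunctionField 1 {f} L x ∧ m = minDeg {f}) ∨
  -- a quartic surface in `P(2, 1, 1, 1)`
  (d = 2 ∧ ∃ (f : MvPolynomial (Fin 4) F) (x : Fin 4 → L),
    IsWeightedHomogeneous ![2, 1, 1, 1] f 4 ∧ coeff (Finsupp.single 0 2) f ≠ 0 ∧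
    IsFunctionField ![2, 1, 1, 1] {f} L x ∧ m = minDeg {f}) ∨
  -- a sextic surface in `P(3, 2, 1, 1)`
  (d = 1 ∧ ∃ (f : MvPolynomial (Fin 4) F) (x : Fin 4 → L),
    IsWeightedHomogeneous ![3, 2, 1, 1] f 6 ∧ coeff (Finsupp.single 0 2) f ≠ 0 ∧
    IsFunctionField ![3, 2, 1, 1] {f} L x ∧ m = minDeg {f})

open Classical in
/-- The degree of irrationality of a del Pezzo surface of any degree over an arbitrary
field: it is `1` if the surface is rational, and `max 2 m` otherwise, where `m` is the least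
degree of a closed point. The possible values of `m` in each degree are listed. -/
theorem result (F L : Type u) [Field F] [Field L] [Algebra F L] (d m : ℕ)
    (h : DelPezzo F L d m) :
    (irr F L = if IsRational F L then 1 else max 2 m) ∧
      (d = 9 → m = 1 ∨ m = 3) ∧ (d = 8 → m = 1 ∨ m = 2 ∨ m = 4) ∧ (d = 7 ∨ d = 5 → m = 1) ∧
      (d = 6 → m = 1 ∨ m = 2 ∨ m = 3 ∨ m = 6) ∧ (d = 4 → m = 1 ∨ m = 2 ∨ m = 4) ∧
      (d = 3 → m = 1 ∨ m = 3) ∧ (d ≤ 2 → m = 1 ∨ m = 2) := by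
  rcases h with ⟨hd, E, _, _, hG, e, c, x, h1, h2, rfl⟩ | ⟨hd, hF, a, b, c, β, x, h1, h2, h3, h4, rfl⟩ |
    ⟨hd, hF, a, b, r, s, t, l, n, z, h1, h2, h3, h4, h5, h6, h7, rfl⟩ | ⟨hd, hd', h1, rfl⟩ |
    ⟨hd, q₁, q₂, x, h1, h2, h3, h4, rfl⟩ |
    ⟨hd, f, x, h1, h2, h3, rfl⟩ | ⟨hd, f, x, h1, h2, h3, rfl⟩ | ⟨hd, f, x, h1, h2, h3, rfl⟩
  · obtain ⟨k1, k2⟩ := irr_nopoint_cubic (normCubic_homog e c) h2 (normCubic_nopoint e c h1)
    refine ⟨k1, ?_⟩
    omega
  · obtain ⟨k1, k2⟩ := irr_dp8 h1 h2 h3 h4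
    refine ⟨k1, ?_⟩
    omega
  · obtain ⟨k1, k2⟩ := irr_dp6 h1 h2 h3 h4 h5 h6 h7
    refine ⟨k1, ?_⟩
    omega
  · have k1 : irr F L = 1 := by
      obtain ⟨s, t, k1, k2⟩ := h1
      have h2 : Module.finrank (IntermediateField.adjoin F {s, t}) L = 1 :=
        IntermediateField.finrank_eq_one_iff_eq_top.2 k2
      have h3 : Module.Finite (IntermediateField.adjoin F {s, t}) L :=
        Module.finite_of_finrank_pos (by omega)
      have hw : Wit F L 1 := ⟨s, t, k1, h3, h2.le⟩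
      exact (irr_eq_one_iff hw).2 ⟨s, t, k1, k2⟩
    refine ⟨by rw [if_pos h1, k1], ?_⟩
    omega
  · obtain ⟨k1, k2⟩ := irr_dp4 h1 h2 h3 h4
    refine ⟨k1, ?_⟩
    omega
  · obtain ⟨k1, k2⟩ := irr_dp3 h1 h2 h3
    refine ⟨k1, ?_⟩
    omega
  · have hw : ∀ i, 0 < (![2, 1, 1, 1] : Fin 4 → ℕ) i := by
      intro i; fin_cases i <;> simp
    have k1 := irr_double' hw rfl h1 h2 h3
    have k2 := double_minDeg hw h1 h2
    have k3 := double_minDeg_pos hw h1 h2
    refine ⟨k1, ?_⟩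
    omega
  · have hw : ∀ i, 0 < (![3, 2, 1, 1] : Fin 4 → ℕ) i := by
      intro i; fin_cases i <;> simp
    have k1 := irr_double' hw rfl h1 h2 h3
    have k2 := double_minDeg hw h1 h2
    have k3 := double_minDeg_pos hw h1 h2
    refine ⟨k1, ?_⟩
    omega

end Pool.Agent.Results.MP_577596_ag.AllDegrees
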