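import Mathlib
import Pool.Agent.H478.Defs
import Pool.Agent.H478.DR
set_option autoImplicit false
namespace Pool.Agent.Results.MP_577596_ag.DegreeAtMostFour
open MvPolynomial DPI

universe u

/-- `L / F` is the function field of a del Pezzo surface `X` of degree `d ≤ 4` over `F`, given by
its classical equations, and `m` is the least degree of a closed point of `X`. -/
def DelPezzo (F L : Type u) [Field F] [Field L] [Algebra F L] (d m : ℕ) : Prop :=
  -- a smooth complete intersection of two quadrics in `P⁴`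
  (d = 4 ∧ ∃ (q₁ q₂ : MvPolynomial (Fin 5) F) (x : Fin 5 → L), q₁.IsHomogeneous 2 ∧
    q₂.IsHomogeneous 2 ∧ IsSmooth ![q₁, q₂] ∧ IsFunctionField 1 {q₁, q₂} L x ∧
    m = minDeg {q₁, q₂}) ∨
  -- a smooth cubic surface in `P³`
  (d = 3 ∧ ∃ (f : MvPolynomial (Fin 4) F) (x : Fin 4 → L), f.IsHomogeneous 3 ∧ IsSmooth ![f] ∧
    IsFunctionField 1 {f} L x ∧ m = minDeg {f}) ∨
  -- a quartic surface in `P(2, 1, 1, 1)`
  (d = 2 ∧ ∃ (f : MvPolynomial (Fin 4) F) (x : Fin 4 → L),
    IsWeightedHomogeneous ![2, 1, 1, 1] f 4 ∧ coeff (Finsupp.single 0 2) f ≠ 0 ∧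
    IsFunctionField ![2, 1, 1, 1] {f} L x ∧ m = minDeg {f}) ∨
  -- a sextic surface in `P(3, 2, 1, 1)`
  (d = 1 ∧ ∃ (f : MvPolynomial (Fin 4) F) (x : Fin 4 → L),
    IsWeightedHomogeneous ![3, 2, 1, 1] f 6 ∧ coeff (Finsupp.single 0 2) f ≠ 0 ∧
    IsFunctionField ![3, 2, 1, 1] {f} L x ∧ m = minDeg {f})

open Classical in
/-- The degree of irrationality of a del Pezzo surface of degree at most four over an arbitrary
field: it is `1` if the surface is rational, and `max 2 m` otherwise, where `m` is the least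
degree of a closed point. Moreover `m ∈ {1, 2, 4}` in degree `4`, `m ∈ {1, 3}` in degree `3`
and `m ≤ 2` in degrees `2` and `1`. -/
theorem result (F L : Type u) [Field F] [Field L] [Algebra F L] (d m : ℕ)
    (h : DelPezzo F L d m) :
    (irr F L = if IsRational F L then 1 else max 2 m) ∧
      (d = 4 → m = 1 ∨ m = 2 ∨ m = 4) ∧ (d = 3 → m = 1 ∨ m = 3) ∧ (d ≤ 2 → m ≤ 2) := by
  rcases h with ⟨hd, q₁, q₂, x, h1, h2, h3, h4, rfl⟩ | ⟨hd, f, x, h1, h2, h3, rfl⟩ |
    ⟨hd, f, x, h1, h2, h3, rfl⟩ | ⟨hd, f, x, h1, h2, h3, rfl⟩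
  · obtain ⟨k1, k2⟩ := irr_dp4 h1 h2 h3 h4
    exact ⟨k1, fun _ => k2, fun h => by omega, fun h => by omega⟩
  · obtain ⟨k1, k2⟩ := irr_dp3 h1 h2 h3
    exact ⟨k1, fun h => by omega, fun _ => k2, fun h => by omega⟩
  · have hw : ∀ i, 0 < (![2, 1, 1, 1] : Fin 4 → ℕ) i := by
      intro i; fin_cases i <;> simp
    exact ⟨irr_double' hw rfl h1 h2 h3, fun h => by omega, fun h => by omega,
      fun _ => double_minDeg hw h1 h2⟩
  · have hw : ∀ i, 0 < (![3, 2, 1, 1] : Fin 4 → ℕ) i := by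
      intro i; fin_cases i <;> simp
    exact ⟨irr_double' hw rfl h1 h2 h3, fun h => by omega, fun h => by omega,
      fun _ => double_minDeg hw h1 h2⟩

end Pool.Agent.Results.MP_577596_ag.DegreeAtMostFour
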